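import Pool.Agent.Helper81.ZX.Goals

/-!
Packet ZX-B: the rates of the basic coupling.
-/

open MeasureTheory ProbabilityTheory Set
open scoped ENNReal
open Pool.Agent.Helper97.ZRP
open Pool.Agent.Helper81.ZX

namespace Pool.Agent.Helper12.ZX

variable {d : ℕ}

lemma total_jump {ζ : Conf d} {x : Site d} (h : ζ x ≠ 0) (y : Site d) :
    total (jump ζ x y) = total ζ := by
  have hle : Finsupp.single x 1 ≤ ζ := by
    rw [Finsupp.single_le_iff]
    exact Nat.one_le_iff_ne_zero.2 h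
  obtain ⟨ξ, rfl⟩ := exists_add_of_le hle
  unfold jump total
  rw [add_tsub_cancel_left, Finsupp.sum_add_index' (fun _ => rfl) (fun _ _ _ => rfl),
    Finsupp.sum_add_index' (fun _ => rfl) (fun _ _ _ => rfl), Finsupp.sum_single_index rfl,
    Finsupp.sum_single_index rfl, add_comm]

lemma apply_le_total (ζ : Conf d) (x : Site d) : ζ x ≤ total ζ := by
  unfold total Finsupp.sum
  by_cases h : x ∈ ζ.support
  · exact Finset.single_le_sum (f := fun y => ζ y) (fun _ _ => Nat.zero_le _) h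
  · rw [Finsupp.notMem_support_iff.1 h]
    exact Nat.zero_le _

lemma card_le_total (ζ : Conf d) : ζ.support.card ≤ total ζ := by
  unfold total Finsupp.sum
  rw [Finset.card_eq_sum_ones]
  exact Finset.sum_le_sum fun x hx => Nat.one_le_iff_ne_zero.2 (Finsupp.mem_support_iff.1 hx)

lemma jump_mono {a b : Conf d} (h : a ≤ b) (x y : Site d) : jump a x y ≤ jump b x y := by
  unfold jump
  exact add_le_add_left (tsub_le_tsub_right h _) _

lemma le_jump {a b : Conf d} (h : a ≤ b) {x : Site d} (hx : a x < b x) (y : Site d) :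
    a ≤ jump b x y := by
  intro z
  unfold jump
  rw [Finsupp.add_apply, Finsupp.tsub_apply]
  by_cases hz : x = z
  · subst hz
    rw [Finsupp.single_eq_same]
    have := h x
    omega
  · rw [Finsupp.single_eq_of_ne (by first | exact hz | exact fun h' => hz h'.symm)]
    have := h z
    omega

lemma pz_univ {p : Site d → ℝ} (hp : IsKernel p) : pz p univ = 1 := by
  unfold pz
  rw [Measure.sum_apply _ MeasurableSet.univ]
  have : ∀ z, (ENNReal.ofReal (p z) • Measure.dirac z) (univ : Set (Site d)) =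
      ENNReal.ofReal (p z) := by
    intro z
    rw [Measure.smul_apply, measure_univ, smul_eq_mul, mul_one]
  rw [tsum_congr this, ← ENNReal.ofReal_tsum_of_nonneg hp.1 hp.2.summable, hp.2.tsum_eq,
    ENNReal.ofReal_one]

lemma meas_site {T : Type*} [MeasurableSpace T] (j : Site d → T) : Measurable j :=
  measurable_of_countable j

lemma integrable_aux {T : Type*} [MeasurableSpace T] [Countable T] [MeasurableSingletonClass T]
    {p : Site d → ℝ} (hp : IsKernel p) (F : T → ℝ) {C : ℝ} (hF : ∀ y, |F y| ≤ C) (c : ℝ)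
    (j : Site d → T) : Integrable F (ENNReal.ofReal c • (pz p).map j) := by
  have : IsProbabilityMeasure (pz p) := ⟨pz_univ hp⟩
  refine Integrable.smul_measure ?_ ENNReal.ofReal_ne_top
  refine Integrable.of_bound (measurable_of_countable F).aestronglyMeasurable C ?_
  exact Filter.Eventually.of_forall fun y => by rw [Real.norm_eq_abs]; exact hF y

lemma integral_aux {T : Type*} [MeasurableSpace T] [Countable T] [MeasurableSingletonClass T]
    (p : Site d → ℝ) (F : T → ℝ) {c : ℝ} (hc : 0 ≤ c)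
    (j : Site d → T) : ∫ y, F y ∂(ENNReal.ofReal c • (pz p).map j) = c * ∫ z, F (j z) ∂(pz p) := by
  rw [integral_smul_measure, integral_map (meas_site j).aemeasurable
    (measurable_of_countable F).aestronglyMeasurable, ENNReal.toReal_ofReal hc, smul_eq_mul]

lemma g_nonneg {g : ℕ → ℝ} (hg : IsRate g) (n : ℕ) : 0 ≤ g n := by
  rw [← hg.1]
  exact hg.2.1 (Nat.zero_le n)

lemma rateL_R1 {N : ℕ} {g : ℕ → ℝ} {p : Site d → ℝ} (hg : IsRate g) (hp : IsKernel p)
    (f : T1 d N → ℝ) {C : ℝ} (hf : ∀ ζ, |f ζ| ≤ C) (ζ : T1 d N) :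
    rateL (R1 g p) f ζ =
      ∑ x ∈ ζ.1.support, g (ζ.1 x) * ∫ z, (f (jmp ζ x z) - f ζ) ∂(pz p) := by
  have hb : ∀ y, |f y - f ζ| ≤ C + C := fun y =>
    (abs_sub _ _).trans (add_le_add (hf y) (hf ζ))
  unfold rateL R1
  rw [integral_finsetSum_measure fun x _ => integrable_aux hp (fun y => f y - f ζ) hb _ _]
  exact Finset.sum_congr rfl fun x _ => integral_aux p (fun y => f y - f ζ) (g_nonneg hg _) _

lemma rateL_R2 {N N' : ℕ} {g : ℕ → ℝ} {p : Site d → ℝ} (hg : IsRate g) (hp : IsKernel p)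
    (F : T2 d N N' → ℝ) {C : ℝ} (hF : ∀ q, |F q| ≤ C) (q : T2 d N N') :
    rateL (R2 g p) F q =
      ∑ x ∈ q.1.2.support, (g (q.1.1 x) * ∫ z, (F (jmpB q x z) - F q) ∂(pz p) +
        (g (q.1.2 x) - g (q.1.1 x)) * ∫ z, (F (jmpO q x z) - F q) ∂(pz p)) := by
  have hb : ∀ y, |F y - F q| ≤ C + C := fun y =>
    (abs_sub _ _).trans (add_le_add (hF y) (hF q))
  unfold rateL R2
  rw [integral_finsetSum_measure fun x _ =>
    (integrable_aux hp (fun y => F y - F q) hb _ _).add_measure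
      (integrable_aux hp (fun y => F y - F q) hb _ _)]
  refine Finset.sum_congr rfl fun x _ => ?_
  rw [integral_add_measure (integrable_aux hp (fun y => F y - F q) hb _ _)
    (integrable_aux hp (fun y => F y - F q) hb _ _),
    integral_aux p (fun y => F y - F q) (g_nonneg hg _),
    integral_aux p (fun y => F y - F q) (sub_nonneg.2 (hg.2.1 (q.2.1 x)))]

lemma pr1_jmpB {N N' : ℕ} (q : T2 d N N') {x : Site d} (hx : q.1.1 x ≠ 0) (z : Site d) :
    pr1 (jmpB q x z) = jmp (pr1 q) x z := by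
  have hx' : q.1.2 x ≠ 0 := by
    have := q.2.1 x
    omega
  have h1 : total (jump q.1.1 x (x + z)) = N := (total_jump hx _).trans q.2.2.1
  have h2 : total (jump q.1.2 x (x + z)) = N' := (total_jump hx' _).trans q.2.2.2
  have e1 : jmpB q x z = ⟨(jump q.1.1 x (x + z), jump q.1.2 x (x + z)),
      jump_mono q.2.1 _ _, h1, h2⟩ := dif_pos ⟨jump_mono q.2.1 _ _, h1, h2⟩
  have e2 : jmp (pr1 q) x z = ⟨jump q.1.1 x (x + z), h1⟩ := dif_pos h1
  rw [e1, e2]
  rfl

lemma pr2_jmpB {N N' : ℕ} (q : T2 d N N') {x : Site d} (hx : q.1.1 x ≠ 0) (z : Site d) :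
    pr2 (jmpB q x z) = jmp (pr2 q) x z := by
  have hx' : q.1.2 x ≠ 0 := by
    have := q.2.1 x
    omega
  have h1 : total (jump q.1.1 x (x + z)) = N := (total_jump hx _).trans q.2.2.1
  have h2 : total (jump q.1.2 x (x + z)) = N' := (total_jump hx' _).trans q.2.2.2
  have e1 : jmpB q x z = ⟨(jump q.1.1 x (x + z), jump q.1.2 x (x + z)),
      jump_mono q.2.1 _ _, h1, h2⟩ := dif_pos ⟨jump_mono q.2.1 _ _, h1, h2⟩
  have e2 : jmp (pr2 q) x z = ⟨jump q.1.2 x (x + z), h2⟩ := dif_pos h2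
  rw [e1, e2]
  rfl

lemma pr1_jmpO {N N' : ℕ} (q : T2 d N N') (x z : Site d) : pr1 (jmpO q x z) = pr1 q := by
  unfold jmpO
  split_ifs with h
  · rfl
  · rfl

lemma pr2_jmpO {N N' : ℕ} (q : T2 d N N') {x : Site d} (hx : q.1.1 x < q.1.2 x) (z : Site d) :
    pr2 (jmpO q x z) = jmp (pr2 q) x z := by
  have hx' : q.1.2 x ≠ 0 := by omega
  have h2 : total (jump q.1.2 x (x + z)) = N' := (total_jump hx' _).trans q.2.2.2
  have e1 : jmpO q x z = ⟨(q.1.1, jump q.1.2 x (x + z)),
      le_jump q.2.1 hx _, q.2.2.1, h2⟩ := dif_pos ⟨le_jump q.2.1 hx _, q.2.2.1, h2⟩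
  have e2 : jmp (pr2 q) x z = ⟨jump q.1.2 x (x + z), h2⟩ := dif_pos h2
  rw [e1, e2]
  rfl

theorem gB : GoalB := by
  intro d N N' g p hg hp
  refine ⟨?_, ?_, ?_⟩
  · intro q
    unfold R2
    rw [Measure.finsetSum_apply]
    have hterm : ∀ x ∈ q.1.2.support, (ENNReal.ofReal (g (q.1.1 x)) • (pz p).map (jmpB q x) +
        ENNReal.ofReal (g (q.1.2 x) - g (q.1.1 x)) • (pz p).map (jmpO q x)) univ =
        ENNReal.ofReal (g (q.1.2 x)) := by
      intro x _
      rw [Measure.add_apply, Measure.smul_apply, Measure.smul_apply,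
        Measure.map_apply (meas_site _) MeasurableSet.univ,
        Measure.map_apply (meas_site _) MeasurableSet.univ, preimage_univ, preimage_univ,
        pz_univ hp, smul_eq_mul, smul_eq_mul, mul_one, mul_one,
        ← ENNReal.ofReal_add (g_nonneg hg _) (sub_nonneg.2 (hg.2.1 (q.2.1 x)))]
      congr 1
      ring
    rw [Finset.sum_congr rfl hterm, ← ENNReal.ofReal_sum_of_nonneg fun x _ => g_nonneg hg _]
    apply ENNReal.ofReal_le_ofReal
    have hN : total q.1.2 = N' := q.2.2.2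
    have h1 : ∑ x ∈ q.1.2.support, g (q.1.2 x) ≤ ∑ _x ∈ q.1.2.support, g N' :=
      Finset.sum_le_sum fun x _ => hg.2.1 ((apply_le_total q.1.2 x).trans_eq hN)
    rw [Finset.sum_const, nsmul_eq_mul] at h1
    have h2 : (q.1.2.support.card : ℝ) ≤ N' := by
      exact_mod_cast (card_le_total q.1.2).trans_eq hN
    nlinarith [mul_le_mul_of_nonneg_right h2 (g_nonneg hg N')]
  · rintro f ⟨C, hf⟩ q
    rw [rateL_R2 hg hp (fun r => f (pr1 r)) (fun r => hf _) q, rateL_R1 hg hp f hf (pr1 q)]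
    have hsub : (pr1 q).1.support ⊆ q.1.2.support := by
      intro x hx
      rw [Finsupp.mem_support_iff] at hx ⊢
      have : q.1.1 x ≤ q.1.2 x := q.2.1 x
      have h' : q.1.1 x ≠ 0 := hx
      omega
    rw [← Finset.sum_subset hsub]
    · refine Finset.sum_congr rfl fun x hx => ?_
      have hx' : q.1.1 x ≠ 0 := Finsupp.mem_support_iff.1 hx
      have e1 : (fun z => f (pr1 (jmpB q x z)) - f (pr1 q)) =
          fun z => f (jmp (pr1 q) x z) - f (pr1 q) := by
        funext z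
        rw [pr1_jmpB q hx']
      have e2 : (fun z => f (pr1 (jmpO q x z)) - f (pr1 q)) = fun _ => (0 : ℝ) := by
        funext z
        rw [pr1_jmpO, sub_self]
      rw [e1, e2, integral_zero, mul_zero, add_zero]
      rfl
    · intro x _ hx
      have hx' : (pr1 q).1 x = 0 := Finsupp.notMem_support_iff.1 hx
      have hx'' : q.1.1 x = 0 := hx'
      have e2 : (fun z => f (pr1 (jmpO q x z)) - f (pr1 q)) = fun _ => (0 : ℝ) := by
        funext z
        rw [pr1_jmpO, sub_self]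
      rw [hx'', hg.1, e2, integral_zero, mul_zero, zero_mul, add_zero]
  · rintro f ⟨C, hf⟩ q
    rw [rateL_R2 hg hp (fun r => f (pr2 r)) (fun r => hf _) q, rateL_R1 hg hp f hf (pr2 q)]
    refine Finset.sum_congr rfl fun x _ => ?_
    have hle : q.1.1 x ≤ q.1.2 x := q.2.1 x
    have e1 : g (q.1.1 x) * ∫ z, (f (pr2 (jmpB q x z)) - f (pr2 q)) ∂(pz p) =
        g (q.1.1 x) * ∫ z, (f (jmp (pr2 q) x z) - f (pr2 q)) ∂(pz p) := by
      by_cases h : q.1.1 x = 0
      · rw [h, hg.1, zero_mul, zero_mul]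
      · simp only [pr2_jmpB q h]
    have e2 : (g (q.1.2 x) - g (q.1.1 x)) * ∫ z, (f (pr2 (jmpO q x z)) - f (pr2 q)) ∂(pz p) =
        (g (q.1.2 x) - g (q.1.1 x)) * ∫ z, (f (jmp (pr2 q) x z) - f (pr2 q)) ∂(pz p) := by
      rcases hle.lt_or_eq with h | h
      · simp only [pr2_jmpO q h]
      · rw [h, sub_self, zero_mul, zero_mul]
    rw [e1, e2, ← add_mul]
    congr 1
    change g (q.1.1 x) + (g (q.1.2 x) - g (q.1.1 x)) = g (q.1.2 x)
    ring

end Pool.Agent.Helper12.ZX
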